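import Pool.Agent.TH101.RG.PTB

set_option autoImplicit false

/-!
# Clusters of primes whose small multiples are all surrounded by prime-free patterns

The coloured Maynard-Tao theorem for arbitrary admissible `K`-tuples `t` of the range `[0, (log X)²]` (they may depend
on `X`), in which the values `a n + b` of an ARBITRARY finite family of linear forms, `1 ≤ |a| ≤ (log₂ X)^5`, are in
addition cleared of primes and of small multiples of primes, under a bound on the total singular weight of the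
family only: a constant multiple of the record scale. In particular this holds, for all the members `n + t_j` of the
cluster and all their multiples `a (n + t_j)` at once, for the places around these multiples.

The covering sieve of helper256 and team, the Maynard-Tao sieve in the record windows of helper312's team and the
coloured theorem of helper362 (starting files) are used in forms in which the class of `n` modulo the primes of the
sieve avoids `K` prescribed classes for each prime, and the forms are covered by one system of classes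
(`Pool.Agent.TH101.RG.PTA`, `PTB` and the files they import).
-/

open Filter

namespace Pool.Agent.Results.MP_7ba156_nt.MultiplesOfClusters

/-- The record scale `f(x) = log x (log₂ x)² log₄ x / (log₃ x)²` (iterated natural logarithms). -/
noncomputable def f (x : ℝ) : ℝ :=
  Real.log x * (Real.log (Real.log x)) ^ 2 * Real.log (Real.log (Real.log (Real.log x))) /
    (Real.log (Real.log (Real.log x))) ^ 2

/-- There is `η > 0` and for every `m` there is `K ≥ m` such that the following holds. Let `A, J` be given and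
`d` squarefree. There is `c > 0` such that for all large `X`: let `t_1, …, t_K` be distinct integers of
`[0, (log X)²]` such that for every prime `p` the `v + t_j` are prime to `p` for some `v`, let the `h + t_j` be prime
to `d`, let the `K` indices be coloured with `m` colours, each used at least `K/(2m)` times, and let `Z` be a finite
set of pairs `(a, b)` of integers with `a ≠ 0`, `|a| ≤ (log₂ X)^5`, `|b| ≤ log X (log₂ X)^A`, `b ≠ a t_j` for all
`j`, and `Σ_{(a, b) ∈ Z} |a|/φ(|a|) |N|/φ(|N|) ≤ c f(X)`, where `N = a Π_j (b - a t_j)`. Then for at least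
`X^(9/10)` integers `n ≡ h (mod d)` of `(X, 3X]` at least `η m` of the colours contain an index `j` with `n + t_j`
prime, and no `a n + b`, `(a, b) ∈ Z`, is of the form `i q` with `1 ≤ |i| ≤ J` and `q` prime. -/
theorem result : ∃ η : ℝ, 0 < η ∧ ∀ m : ℕ, 1 ≤ m → ∃ K : ℕ, m ≤ K ∧
    ∀ (A J d : ℕ), Squarefree d → ∃ c : ℝ, 0 < c ∧ ∃ X₀ : ℝ, ∀ X : ℝ, X₀ ≤ X →
    ∀ t : Fin K → ℕ, Function.Injective t → (∀ j, (t j : ℝ) ≤ (Real.log X) ^ 2) →
    (∀ p : ℕ, p.Prime → ∃ v : ℕ, ∀ j, ¬ p ∣ v + t j) →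
    ∀ h : ℕ, (∀ j, (h + t j).Coprime d) →
    ∀ col : Fin K → Fin m, (∀ e, K ≤ 2 * m * {j | col j = e}.ncard) →
    ∀ Z : Finset (ℤ × ℤ), (∀ z ∈ Z, z.1 ≠ 0 ∧ |(z.1 : ℝ)| ≤ (Real.log (Real.log X)) ^ 5 ∧
      |(z.2 : ℝ)| ≤ Real.log X * (Real.log (Real.log X)) ^ A ∧ ∀ j, z.2 ≠ z.1 * t j) →
    ∑ z ∈ Z, (z.1.natAbs / z.1.natAbs.totient : ℝ) *
      ((z.1 * ∏ j, (z.2 - z.1 * t j)).natAbs / (z.1 * ∏ j, (z.2 - z.1 * t j)).natAbs.totient : ℝ) ≤ c * f X →
      X ^ (9 / 10 : ℝ) ≤ ({n : ℕ | X < n ∧ (n : ℝ) ≤ 3 * X ∧ n ≡ h [MOD d] ∧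
        η * m ≤ ({e : Fin m | ∃ j, col j = e ∧ (n + t j).Prime}.ncard : ℝ) ∧
        ∀ z ∈ Z, ∀ i : ℤ, 1 ≤ |i| → |i| ≤ J → ∀ q : ℕ, q.Prime → i * q ≠ z.1 * n + z.2}.ncard : ℝ) := by
  classical
  obtain ⟨η, hη, H0⟩ := Pool.Agent.TH101.RG.cluster_pairs
  refine ⟨η, hη, fun m hm => ?_⟩
  obtain ⟨K, hmK, HK⟩ := H0 m hm
  refine ⟨K, hmK, fun A J d hd => ?_⟩
  obtain ⟨c, hc, hX⟩ := HK A J d hd
  obtain ⟨X₀, hX₀⟩ := eventually_atTop.1 hX
  refine ⟨c, hc, X₀, fun X hXX t htinj htl hadm h hh col hcol Z hZ hZw => ?_⟩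
  set S := {n : ℕ | X < n ∧ (n : ℝ) ≤ 3 * X ∧ n ≡ h [MOD d] ∧
        η * m ≤ ({e : Fin m | ∃ j, col j = e ∧ (n + t j).Prime}.ncard : ℝ) ∧
        ∀ z ∈ Z, ∀ i : ℤ, 1 ≤ |i| → |i| ≤ J → ∀ q : ℕ, q.Prime → i * q ≠ z.1 * n + z.2} with hS
  have hfin : S.Finite := by
    apply (Set.finite_Iic ⌊3 * X⌋₊).subset
    intro p hp
    exact Set.mem_Iic.2 (Nat.le_floor hp.2.1)
  by_contra hcon
  push Not at hcon
  rw [Set.ncard_eq_toFinset_card S hfin] at hcon
  obtain ⟨n, hXn, hn3, hnb, hnd, ⟨E, hE1, hE2⟩, hmain⟩ := hX₀ X hXX t htinj htl hadm h hh col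
    (fun e => by
      have h1 : {j | col j = e}.ncard = Pool.Agent.H362R2.RQ.fib col e := by
        rw [Set.ncard_eq_toFinset_card']
        unfold Pool.Agent.H362R2.RQ.fib
        congr 1
        ext j
        simp
      rw [← h1]
      exact hcol e) Z (fun z hz => by
        obtain ⟨h1, h2, h3, h4⟩ := hZ z hz
        exact ⟨h1, h4, h2, h3⟩) hZw hfin.toFinset hcon.le
  apply hnb
  rw [Set.Finite.mem_toFinset]
  refine ⟨hXn, hn3, hnd, hE1.trans ?_, hmain⟩
  have h1 : (E : Set (Fin m)) ⊆ {e : Fin m | ∃ j, col j = e ∧ (n + t j).Prime} := fun e he => hE2 e he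
  have h2 := Set.ncard_le_ncard h1 (Set.toFinite _)
  rw [Set.ncard_coe_finset] at h2
  exact_mod_cast h2

end Pool.Agent.Results.MP_7ba156_nt.MultiplesOfClusters
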